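import Pool.Agent.V5helper49.EU.Fin

set_option autoImplicit false

namespace Pool.Agent.Results.MP_c59857_nt.ExplicitUniformBound

open Finset Filter Topology

open Classical in
/-- Let `s ≥ 2` be the number of exponents equal to one.  The correlations of the Moebius function in
the problem are at most `1 - 1 / (2 ^ (s - 1) - 1) + δ` times the trivial bound (the number of `n ≤ N`
for which all the `n + α i` are squarefree), for every `δ > 0`: for all large `N` outside one set `𝓔` of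
logarithmic density zero (the same for all shifts, exponents and `δ`), and for the logarithmic averages
up to every large `N`. -/
theorem result : ∃ 𝓔 : Set ℕ,
    Tendsto (fun X : ℕ => (∑ N ∈ Icc 1 X, if N ∈ 𝓔 then (1 : ℝ) / N else 0) / Real.log X)
      atTop (𝓝 0) ∧
    ∀ (r : ℕ) (α : Fin r → ℤ) (ε : Fin r → ℕ), Function.Injective α → (∀ i, ε i = 1 ∨ ε i = 2) →
      2 ≤ (univ.filter (fun i => ε i = 1)).card → ∀ δ : ℝ, 0 < δ →
      (∃ N₀ : ℕ, ∀ N : ℕ, N₀ ≤ N → N ∉ 𝓔 →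
        |∑ n ∈ Icc 1 N, ∏ i, ((ArithmeticFunction.moebius ((n : ℤ) + α i).toNat : ℤ) : ℝ) ^ ε i| ≤
          (1 - 1 / (2 ^ ((univ.filter (fun i => ε i = 1)).card - 1) - 1) + δ) *
            ∑ n ∈ Icc 1 N, ∏ i, ((ArithmeticFunction.moebius ((n : ℤ) + α i).toNat : ℤ) : ℝ) ^ 2) ∧
      ∃ N₀ : ℕ, ∀ N : ℕ, N₀ ≤ N →
        |∑ n ∈ Icc 1 N, (∏ i, ((ArithmeticFunction.moebius ((n : ℤ) + α i).toNat : ℤ) : ℝ) ^ ε i) / n| ≤
          (1 - 1 / (2 ^ ((univ.filter (fun i => ε i = 1)).card - 1) - 1) + δ) *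
            ∑ n ∈ Icc 1 N, (∏ i, ((ArithmeticFunction.moebius ((n : ℤ) + α i).toNat : ℤ) : ℝ) ^ 2) / n := by
  obtain ⟨E, h2, h3⟩ := Pool.Agent.V5helper49.EU.mob_final_expl
  refine ⟨E, h2, fun r α ε hα hε hex δ hδ => ?_⟩
  have h := h3 r α ε hα hε hex δ hδ
  unfold Pool.Agent.Y958.U.GG at h
  convert h using 10

end Pool.Agent.Results.MP_c59857_nt.ExplicitUniformBound
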