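import Pool.Agent.V5helper64.TF.Base
import Pool.Agent.N469.TL.Corr

/-!
# Chowla's conjecture and sign patterns of the Möbius function: all the tuples of shifts near almost all the tuples
of smooth numbers, and of integers composed of the primes of arbitrary sets of small primes

The estimate for a single shift (the shifts near almost all the smooth numbers) is from the starting files
(`Pool.Agent.N469.TL`).
-/

set_option autoImplicit false

namespace Pool.Agent.Results.MP_c59857_nt.SmoothTuples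

open Finset
open Pool.Agent.V5helper64.TF

/-- The Möbius function on the integers, `0` at the integers `m ≤ 0` (`m.toNat = 0` for these). -/
def mu (m : ℤ) : ℤ := ArithmeticFunction.moebius m.toNat

/-- For all `l`, all exponents `e j` in `{0, 1, 2}`, all `j` with `e j = 1` and all `x ≤ X / a j`:
`|∑ n ≤ x, g l n * ∏ k, μ (a k * n + z k) ^ e k| ≤ ε`. -/
def Chowla (X : ℕ) (ε : ℝ) {r L : ℕ} (a : Fin r → ℕ) (g : Fin L → ℕ → ℂ) (z : Fin r → ℤ) : Prop :=
  ∀ l, ∀ e : Fin r → ℕ, (∀ j, e j ≤ 2) → ∀ j, e j = 1 → ∀ x : ℕ, a j * x ≤ X →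
    ‖∑ n ∈ Icc 1 x, g l n * ∏ k, (mu (a k * n + z k) : ℂ) ^ e k‖ ≤ ε

open Classical in
/-- For all `l`, all patterns `s` in `{-1, 0, 1} ^ r` and all `x` with `a j * x ≤ X` for all `j`: the sum of `g l n` over
the `n ≤ x` with `μ (a j * n + z j) = s j` for all `j` differs by at most `ε` from `2 ^ (- m)` times the sum of `g l n`
over the `n ≤ x` with `μ (a j * n + z j) ^ 2 = s j ^ 2` for all `j`, where `m` is the number of nonzero entries of `s`. -/
def Patterns (X : ℕ) (ε : ℝ) {r L : ℕ} (a : Fin r → ℕ) (g : Fin L → ℕ → ℂ) (z : Fin r → ℤ) : Prop :=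
  ∀ l, ∀ s : Fin r → ℤ, (∀ j, s j = -1 ∨ s j = 0 ∨ s j = 1) → ∀ x : ℕ, (∀ j, a j * x ≤ X) →
    ‖∑ n ∈ (Icc 1 x).filter (fun n : ℕ => ∀ j, mu (a j * n + z j) = s j), g l n -
      (1 / 2 : ℂ) ^ (univ.filter fun j => s j ≠ 0).card *
        ∑ n ∈ (Icc 1 x).filter (fun n : ℕ => ∀ j, mu (a j * n + z j) ^ 2 = s j ^ 2), g l n‖ ≤ ε

/-- The integers `1 ≤ v ≤ N` all of whose prime factors belong to `P`. -/
def composedOf (P : Finset ℕ) (N : ℕ) : Finset ℕ := (Icc 1 N).filter fun v => v.primeFactors ⊆ P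

/-- The `y`-smooth integers `1 ≤ v ≤ N`: the integers all of whose prime factors are at most `y`. -/
def smooth (y N : ℕ) : Finset ℕ := (Icc 1 N).filter fun v => ∀ p ∈ v.primeFactors, p ≤ y

open Classical in
/-- The number of the tuples `(i 1, ..., i r)` of indices such that some tuple of integers `z` with
`|z j - v j (i j)| ≤ D` for all `j` does not have the property `P`. -/
noncomputable def exceptions {r : ℕ} {ι : Fin r → Type} [∀ j, Fintype (ι j)] (v : ∀ j, ι j → ℤ) (D : ℝ)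
    (P : (Fin r → ℤ) → Prop) : ℝ :=
  ((univ.filter fun i : (∀ j, ι j) => ∃ z : Fin r → ℤ, (∀ j, |((z j - v j (i j) : ℤ) : ℝ)| ≤ D) ∧ ¬ P z).card : ℝ)

lemma mu_norm (m : ℤ) : ‖(mu m : ℂ)‖ ≤ 1 := by
  have h := Pool.Agent.H373R2.T7.muC_norm m.toNat
  exact h

lemma mu_vals (m : ℤ) : mu m = -1 ∨ mu m = 0 ∨ mu m = 1 := by
  unfold mu
  rcases ArithmeticFunction.moebius_eq_or m.toNat with h | h | h
  · exact Or.inr (Or.inl h)
  · exact Or.inr (Or.inr h)
  · exact Or.inl h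

lemma mu_ex (m : ℤ) : Pool.Agent.H373R2.T7.exI Pool.Agent.H373R2.T7.muC m = (mu m : ℂ) := by
  unfold Pool.Agent.H373R2.T7.exI mu
  split_ifs with h3
  · rfl
  · rw [Int.toNat_of_nonpos (by omega)]
    simp

/-- coefficients of the indicator function of `μ = s` -/
noncomputable def co (s : ℤ) (t : ℕ) : ℂ :=
  if s = 0 then (if t = 0 then 1 else if t = 1 then 0 else -1) else (if t = 0 then 0 else if t = 1 then s / 2 else 1 / 2)

/-- coefficients of the indicator function of `μ ^ 2 = s ^ 2`, divided by two for `s ≠ 0` -/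
noncomputable def co' (s : ℤ) (t : ℕ) : ℂ :=
  if s = 0 then (if t = 0 then 1 else if t = 1 then 0 else -1) else (if t = 0 then 0 else if t = 1 then 0 else 1 / 2)

lemma co_ind (s : ℤ) (hs : s = -1 ∨ s = 0 ∨ s = 1) (m : ℤ) :
    ∑ t ∈ range 3, co s t * (mu m : ℂ) ^ t = if mu m = s then 1 else 0 := by
  rw [sum_range_succ, sum_range_succ, sum_range_succ, sum_range_zero]
  unfold co
  rcases hs with rfl | rfl | rfl <;> rcases mu_vals m with h | h | h <;> rw [h] <;> norm_num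

lemma co'_ind (s : ℤ) (hs : s = -1 ∨ s = 0 ∨ s = 1) (m : ℤ) :
    ∑ t ∈ range 3, co' s t * (mu m : ℂ) ^ t =
      (if s ≠ 0 then 1 / 2 else 1) * if mu m ^ 2 = s ^ 2 then 1 else 0 := by
  rw [sum_range_succ, sum_range_succ, sum_range_succ, sum_range_zero]
  unfold co'
  rcases hs with rfl | rfl | rfl <;> rcases mu_vals m with h | h | h <;> rw [h] <;> norm_num

lemma co_norm (s : ℤ) (hs : s = -1 ∨ s = 0 ∨ s = 1) (t : ℕ) : ‖co s t‖ ≤ 1 := by
  unfold co
  rcases hs with rfl | rfl | rfl <;> split_ifs <;> norm_num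

lemma prod_ind {r : ℕ} (c : Fin r → ℕ → ℂ) (u : Fin r → ℂ) :
    ∏ j, ∑ t ∈ range 3, c j t * u j ^ t =
      ∑ e ∈ Fintype.piFinset (fun _ : Fin r => range 3), (∏ j, c j (e j)) * ∏ j, u j ^ e j := by
  rw [prod_univ_sum]
  apply sum_congr rfl
  intro e _
  rw [prod_mul_distrib]

lemma ind_pat {r : ℕ} (s : Fin r → ℤ) (hs : ∀ j, s j = -1 ∨ s j = 0 ∨ s j = 1) (m : Fin r → ℤ) (w : ℂ)
    [Decidable (∀ j, mu (m j) = s j)] :
    (if ∀ j, mu (m j) = s j then w else 0) =
      ∑ e ∈ Fintype.piFinset (fun _ : Fin r => range 3), (∏ j, co (s j) (e j)) * (w * ∏ j, (mu (m j) : ℂ) ^ e j) := by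
  have e2 := prod_ind (fun j t => co (s j) t) (fun j => (mu (m j) : ℂ))
  simp only [co_ind _ (hs _)] at e2
  have e3 : ∑ e ∈ Fintype.piFinset (fun _ : Fin r => range 3), (∏ j, co (s j) (e j)) *
      (w * ∏ j, (mu (m j) : ℂ) ^ e j) = w * ∏ j, (if mu (m j) = s j then (1 : ℂ) else 0) := by
    rw [e2, mul_sum]
    apply sum_congr rfl
    intro e _
    ring
  rw [e3]
  by_cases h : ∀ j, mu (m j) = s j
  · rw [if_pos h, prod_eq_one (fun j _ => if_pos (h j)), mul_one]
  · rw [if_neg h]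
    push Not at h
    obtain ⟨j, hj⟩ := h
    rw [prod_eq_zero (mem_univ j) (if_neg hj), mul_zero]

lemma ind_pat' {r : ℕ} (s : Fin r → ℤ) (hs : ∀ j, s j = -1 ∨ s j = 0 ∨ s j = 1) (m : Fin r → ℤ) (w : ℂ)
    [Decidable (∀ j, mu (m j) ^ 2 = s j ^ 2)] :
    (1 / 2 : ℂ) ^ (univ.filter fun j => s j ≠ 0).card * (if ∀ j, mu (m j) ^ 2 = s j ^ 2 then w else 0) =
      ∑ e ∈ Fintype.piFinset (fun _ : Fin r => range 3), (∏ j, co' (s j) (e j)) * (w * ∏ j, (mu (m j) : ℂ) ^ e j) := by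
  have e2 := prod_ind (fun j t => co' (s j) t) (fun j => (mu (m j) : ℂ))
  simp only [co'_ind _ (hs _)] at e2
  have e4 : ∏ j, (if s j ≠ 0 then (1 / 2 : ℂ) else 1) = (1 / 2 : ℂ) ^ (univ.filter fun j => s j ≠ 0).card := by
    rw [prod_ite, prod_const_one, mul_one, prod_const]
  rw [prod_mul_distrib, e4] at e2
  have e3 : ∑ e ∈ Fintype.piFinset (fun _ : Fin r => range 3), (∏ j, co' (s j) (e j)) *
      (w * ∏ j, (mu (m j) : ℂ) ^ e j) = w * ((1 / 2 : ℂ) ^ (univ.filter fun j => s j ≠ 0).card *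
        ∏ j, (if mu (m j) ^ 2 = s j ^ 2 then (1 : ℂ) else 0)) := by
    rw [e2, mul_sum]
    apply sum_congr rfl
    intro e _
    ring
  rw [e3]
  by_cases h : ∀ j, mu (m j) ^ 2 = s j ^ 2
  · rw [if_pos h, prod_eq_one (fun j _ => if_pos (h j))]
    ring
  · rw [if_neg h]
    push Not at h
    obtain ⟨j, hj⟩ := h
    rw [prod_eq_zero (mem_univ j) (if_neg hj)]
    ring

lemma patterns_of {X : ℕ} {ε : ℝ} {r L : ℕ} {a : Fin r → ℕ} {g : Fin L → ℕ → ℂ} {z : Fin r → ℤ} (hε : 0 ≤ ε)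
    (h : Chowla X ε a g z) : Patterns X (3 ^ r * ε) a g z := by
  classical
  intro l s hs x hx
  rw [sum_filter, sum_filter, mul_sum]
  simp only [ind_pat s hs, ind_pat' s hs]
  rw [← sum_sub_distrib]
  simp only [← sum_sub_distrib, ← sub_mul]
  rw [sum_comm]
  simp only [← mul_sum]
  refine (norm_sum_le _ _).trans ?_
  have e5 : ((Fintype.piFinset (fun _ : Fin r => range 3)).card : ℝ) = 3 ^ r := by
    rw [Fintype.card_piFinset]
    simp
  rw [← e5, ← nsmul_eq_mul]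
  apply sum_le_card_nsmul
  intro e he
  rw [norm_mul]
  by_cases h1 : ∃ j, e j = 1
  · obtain ⟨j, hj⟩ := h1
    have e6 : ∏ j, co' (s j) (e j) = 0 := by
      apply prod_eq_zero (mem_univ j)
      rw [hj]
      unfold co'
      split_ifs <;> simp_all
    have e7 : ‖∏ j, co (s j) (e j)‖ ≤ 1 := by
      rw [norm_prod]
      exact prod_le_one (fun _ _ => norm_nonneg _) fun j _ => co_norm _ (hs j) _
    rw [e6, sub_zero]
    have e8 := h l e (fun j => by have := Fintype.mem_piFinset.1 he j; rw [mem_range] at this; omega) j hj x (hx j)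
    calc _ ≤ 1 * ε := mul_le_mul e7 e8 (norm_nonneg _) zero_le_one
      _ = ε := one_mul _
  · push Not at h1
    have e6 : ∏ j, co (s j) (e j) = ∏ j, co' (s j) (e j) := by
      apply prod_congr rfl
      intro j _
      have := h1 j
      unfold co co'
      split_ifs <;> simp_all
    rw [e6, sub_self, norm_zero, zero_mul]
    exact hε

lemma chowla_mono {X : ℕ} {ε ε' : ℝ} {r L : ℕ} {a : Fin r → ℕ} {g : Fin L → ℕ → ℂ} {z : Fin r → ℤ} (hε : ε ≤ ε')
    (h : Chowla X ε a g z) : Chowla X ε' a g z :=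
  fun l e he j hj x hx => (h l e he j hj x hx).trans hε

lemma patterns_mono {X : ℕ} {ε ε' : ℝ} {r L : ℕ} {a : Fin r → ℕ} {g : Fin L → ℕ → ℂ} {z : Fin r → ℤ} (hε : ε ≤ ε')
    (h : Patterns X ε a g z) : Patterns X ε' a g z :=
  fun l s hs x hx => (h l s hs x hx).trans hε

/-- The property of a family of shifts `v i` used: few of them are close to a shift for which one of not too many
correlation sums is large. -/
def Single (N B A W U : ℕ) {ι : Type} [Fintype ι] (v : ι → ℤ) : Prop :=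
  ∀ (κ : Type) [Fintype κ], (Fintype.card κ : ℝ) ≤ Real.log N ^ W → ∀ (α : ℕ) (g : κ → ℕ → ℂ), 1 ≤ α →
    (∀ l, ∀ n, ‖g l n‖ ≤ 1) → ∀ S : Finset ι,
    (∀ i ∈ S, ∃ t : ℤ, |(t : ℝ)| ≤ Real.log N ^ A ∧ ∃ l, ∃ X : ℕ, α * X ≤ B * N ∧
      (N : ℝ) / Real.log N ^ U < ‖∑ n ∈ Icc 1 X, g l n *
        Pool.Agent.H373R2.T7.exI Pool.Agent.H373R2.T7.muC (((α * n : ℕ) : ℤ) + (v i + t))‖) →
    (S.card : ℝ) ≤ Fintype.card ι / Real.log N ^ U

theorem core (r A B T U : ℕ) : ∃ N₀ : ℕ, ∀ N : ℕ, N₀ ≤ N →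
    ∀ (ι : Fin r → Type) [∀ j, Fintype (ι j)] (v : ∀ j, ι j → ℤ),
    (∀ j, Single N B A (T + r + (A + 2) * r) (U + 1) (v j)) →
    ∀ a : Fin r → ℕ, (∀ j, 1 ≤ a j) → ∀ L : ℕ, (L : ℝ) ≤ Real.log N ^ T → ∀ g : Fin L → ℕ → ℂ, (∀ l n, ‖g l n‖ ≤ 1) →
      exceptions v (Real.log N ^ A) (fun z => Chowla (B * N) (N / Real.log N ^ U) a g z ∧
        Patterns (B * N) (N / Real.log N ^ U) a g z) ≤ (∏ j, Fintype.card (ι j) : ℝ) / Real.log N ^ U := by
  classical
  obtain ⟨N₁, h1⟩ := Pool.Agent.H373R2.T7.ev_L' (3 ^ r + r + 3)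
  refine ⟨N₁ + 3, fun N hN ι _ v hv a ha L hL g hg => ?_⟩
  have hL1 := h1 N (by omega)
  have h3r : (1 : ℝ) ≤ 3 ^ r := one_le_pow₀ (by norm_num)
  have hr0 : (0 : ℝ) ≤ r := Nat.cast_nonneg r
  have hN0 : (0 : ℝ) < N := by exact_mod_cast (by omega : 0 < N)
  obtain ⟨D, hD⟩ : ∃ D, D = Real.log (N : ℝ) := ⟨_, rfl⟩
  rw [← hD] at hL1 hL ⊢
  have hD0 : 0 < D := by linarith
  have hD1 : 1 ≤ D := by linarith
  have hD3 : 3 ≤ D := by linarith
  obtain ⟨Q, hQ⟩ : ∃ Q, Q = ⌊D ^ A⌋₊ := ⟨_, rfl⟩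
  have hQ1 : (Q : ℝ) ≤ D ^ A := by rw [hQ]; exact Nat.floor_le (by positivity)
  have hcard : ((L * (3 ^ r * (2 * Q + 1) ^ r) : ℕ) : ℝ) ≤ D ^ (T + r + (A + 2) * r) := by
    push_cast
    rw [pow_add, pow_add, mul_assoc]
    refine mul_le_mul hL ?_ (by positivity) (by positivity)
    refine mul_le_mul (pow_le_pow_left₀ (by norm_num) hD3 _) ?_ (by positivity) (by positivity)
    rw [pow_mul]
    apply pow_le_pow_left₀ (by positivity)
    have hA : 1 ≤ D ^ A := one_le_pow₀ hD1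
    calc (2 * Q + 1 : ℝ) ≤ 3 * D ^ A := by linarith
      _ ≤ (D * D) * D ^ A := by
          apply mul_le_mul_of_nonneg_right _ (by positivity)
          nlinarith
      _ = _ := by ring
  -- the exceptional sets for the directions
  obtain ⟨E, hEd⟩ : ∃ E : Fin r → Finset (∀ j, ι j), E = fun j => univ.filter fun i => ∃ z : Fin r → ℤ,
      (∀ k, |((z k - v k (i k) : ℤ) : ℝ)| ≤ D ^ A) ∧ ∃ l, ∃ e : Fin r → ℕ, (∀ k, e k ≤ 2) ∧ e j = 1 ∧
      ∃ x : ℕ, a j * x ≤ B * N ∧ (N : ℝ) / D ^ (U + 1) <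
        ‖∑ n ∈ Icc 1 x, g l n * ∏ k, (mu (a k * n + z k) : ℂ) ^ e k‖ := ⟨_, rfl⟩
  have hsub : (univ.filter fun i : (∀ j, ι j) => ∃ z : Fin r → ℤ, (∀ j, |((z j - v j (i j) : ℤ) : ℝ)| ≤ D ^ A) ∧
      ¬ (Chowla (B * N) (N / D ^ U) a g z ∧ Patterns (B * N) (N / D ^ U) a g z)) ⊆ univ.biUnion E := by
    intro i hi
    obtain ⟨z, hz, hbad⟩ := (mem_filter.1 hi).2
    have h3 : ¬ Chowla (B * N) (N / D ^ (U + 1)) a g z := by
      intro h4
      apply hbad
      have e1 : (N : ℝ) / D ^ (U + 1) ≤ N / D ^ U := by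
        apply div_le_div_of_nonneg_left hN0.le (by positivity)
        exact pow_le_pow_right₀ hD1 (by omega)
      refine ⟨chowla_mono e1 h4, patterns_mono ?_ (patterns_of (by positivity) h4)⟩
      rw [pow_succ, ← mul_div_assoc, div_le_div_iff₀ (by positivity) (by positivity)]
      have e2 : (3 : ℝ) ^ r ≤ D := by linarith
      calc 3 ^ r * (N : ℝ) * D ^ U ≤ D * (N : ℝ) * D ^ U := by gcongr
        _ = _ := by ring
    unfold Chowla at h3
    push Not at h3
    obtain ⟨l, e, he, j, hj, x, hx, hlt⟩ := h3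
    rw [mem_biUnion]
    refine ⟨j, mem_univ _, ?_⟩
    rw [hEd]
    exact mem_filter.2 ⟨mem_univ _, z, hz, l, e, he, hj, x, hx, hlt⟩
  have hone : ∀ j, ((E j).card : ℝ) ≤ Fintype.card (∀ j, ι j) * (1 / D ^ (U + 1)) := by
    intro j
    apply line_count j _ _ (by positivity)
    intro i
    rw [mul_one_div, hD]
    refine hv j
      (Fin L × (Fin r → Fin 3) × (Fin r → Fin (2 * Q + 1))) ?_ (a j)
      (fun q n => g q.1 n * ∏ k ∈ univ.erase j, (mu (a k * n + (v k (i k) + (((q.2.2 k : ℕ) : ℤ) - Q))) : ℂ) ^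
        (q.2.1 k : ℕ)) (ha j) ?_ _ ?_
    · rw [← hD]
      refine le_trans (le_of_eq ?_) hcard
      simp [Fintype.card_prod]
    · rintro ⟨l, e, c⟩ n
      have e7 : ‖∏ k ∈ univ.erase j, (mu (a k * n + (v k (i k) + (((c k : ℕ) : ℤ) - Q))) : ℂ) ^ (e k : ℕ)‖ ≤ 1 := by
        rw [norm_prod]
        refine prod_le_one (fun _ _ => norm_nonneg _) fun k _ => ?_
        rw [norm_pow]
        exact pow_le_one₀ (norm_nonneg _) (mu_norm _)
      have e8 := mul_le_mul (hg l n) e7 (norm_nonneg _) zero_le_one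
      rw [mul_one, ← norm_mul] at e8
      exact e8
    · intro t ht
      have ht1 := (mem_filter.1 ht).2
      rw [hEd] at ht1
      obtain ⟨z, hz, l, e, he, hj, x, hx, hlt⟩ := (mem_filter.1 ht1).2
      have hzj := hz j
      rw [Function.update_self] at hzj
      rw [← hD]
      have hzQ : ∀ k, k ≠ j → |z k - v k (i k)| ≤ Q := by
        intro k hk
        have h4 := hz k
        rw [Function.update_of_ne hk] at h4
        rw [hQ]
        have h5 : ((|z k - v k (i k)|).toNat : ℝ) ≤ D ^ A := by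
          have h6 : (((|z k - v k (i k)|).toNat : ℤ) : ℝ) = |((z k - v k (i k) : ℤ) : ℝ)| := by
            rw [Int.toNat_of_nonneg (abs_nonneg _)]
            push_cast
            rfl
          have h7 : ((|z k - v k (i k)|).toNat : ℝ) = |((z k - v k (i k) : ℤ) : ℝ)| := by
            rw [← h6]
            push_cast
            rfl
          rw [h7]
          exact h4
        have h8 := Nat.le_floor h5
        omega
      refine ⟨z j - v j t, hzj, ⟨l, fun k => ⟨e k, by have := he k; omega⟩,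
        fun k => ⟨if k = j then 0 else (z k - v k (i k) + Q).toNat, ?_⟩⟩, x, hx, ?_⟩
      · split_ifs with hk
        · omega
        · have h4 := abs_le.1 (hzQ k hk)
          omega
      · refine lt_of_lt_of_eq hlt ?_
        congr 1
        apply sum_congr rfl
        intro n _
        rw [← mul_prod_erase univ _ (mem_univ j), hj, pow_one, mu_ex]
        have e3 : ((a j * n : ℕ) : ℤ) + (v j t + (z j - v j t)) = a j * n + z j := by
          push_cast
          ring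
        rw [e3]
        have e4 : ∏ k ∈ univ.erase j, (mu (a k * n + z k) : ℂ) ^ e k = ∏ k ∈ univ.erase j,
            (mu (a k * n + (v k (i k) + (((if k = j then 0 else (z k - v k (i k) + Q).toNat : ℕ) : ℤ) - Q))) : ℂ) ^
              e k := by
          apply prod_congr rfl
          intro k hk
          have hkj : k ≠ j := (mem_erase.1 hk).1
          rw [if_neg hkj]
          have h4 := abs_le.1 (hzQ k hkj)
          congr 3
          omega
        rw [e4]
        ring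
  unfold exceptions
  have e5 : (((univ.filter fun i : (∀ j, ι j) => ∃ z : Fin r → ℤ, (∀ j, |((z j - v j (i j) : ℤ) : ℝ)| ≤ D ^ A) ∧
      ¬ (Chowla (B * N) (N / D ^ U) a g z ∧ Patterns (B * N) (N / D ^ U) a g z)).card : ℕ) : ℝ) ≤
      ∑ j, ((E j).card : ℝ) := by
    exact_mod_cast (card_le_card hsub).trans card_biUnion_le
  refine le_trans (le_trans (le_of_eq ?_) e5) ?_
  · congr 2
  refine (sum_le_sum fun j _ => hone j).trans ?_
  rw [sum_const, card_univ, Fintype.card_fin, nsmul_eq_mul, Fintype.card_pi]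
  push_cast
  obtain ⟨P, hP⟩ : ∃ P : ℝ, P = ∏ j, (Fintype.card (ι j) : ℝ) := ⟨_, rfl⟩
  rw [← hP]
  have hP0 : 0 ≤ P := by rw [hP]; positivity
  rw [pow_succ, mul_one_div, ← mul_div_assoc, div_le_div_iff₀ (by positivity) (by positivity)]
  have e6 : (r : ℝ) ≤ D := by linarith
  calc (r : ℝ) * P * D ^ U ≤ D * P * D ^ U := by gcongr
    _ = _ := by ring


open Classical in
/-- the shifts `c + κ v`, for the integers `v` composed of primes of a set, and for the smooth numbers -/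
lemma single_sm (κ : ℤ) (hκ : κ ≠ 0) (δ : ℝ) (hδ : 0 < δ) (K B A W U : ℕ) : ∃ N₀ : ℕ, ∀ N, N₀ ≤ N → ∀ y : ℕ, 1 ≤ y →
    (y : ℝ) ≤ Real.log N ^ K → ∀ c : ℤ, |c| ≤ B * N → ∀ V : Finset ℕ,
    ((∃ P : Finset ℕ, (∀ p ∈ P, p.Prime ∧ p ≤ y) ∧ (y : ℝ) ^ (1 / 2 + δ) * Real.log N ≤ P.card ∧ V = composedOf P N) ∨
      (Real.log N ^ (2 + δ) ≤ y ∧ V = smooth y N)) →
    Single N B A W U (fun v : {v // v ∈ V} => c + κ * ((v : ℕ) : ℤ)) := by
  obtain ⟨N₂, h2⟩ := Pool.Agent.H373R2.T7.ev_L' 1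
  obtain ⟨N₀, h0⟩ := Pool.Agent.N469.TL.both δ hδ K U _ (Pool.Agent.N469.TL.sm_corr κ hκ K B A W U
    Pool.Agent.H373R2.T7.muR Pool.Agent.Y885.fine_mu)
  refine ⟨N₀ + N₂, fun N hN y hy hy' c hc V hV Λ _ hL α g hα hg S hS => ?_⟩
  have hL1 := h2 N (by omega)
  have h3 := h0 N (by omega) y hy hy' (fun v : ℕ => ∃ h : v ∈ V, (⟨v, h⟩ : {v // v ∈ V}) ∈ S)
    (fun v => inferInstance) ⟨c, Fintype.card Λ, fun _ => α, fun l n => g ((Fintype.equivFin Λ).symm l) n, hc, hL,
      fun _ => hα, fun l n _ _ => (hg _ _).trans (one_le_pow₀ hL1), fun v hv => ?_⟩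
  · have e1 : (S.card : ℝ) ≤ ((V.filter fun v : ℕ => ∃ h : v ∈ V, (⟨v, h⟩ : {v // v ∈ V}) ∈ S).card : ℝ) := by
      apply Nat.cast_le.2
      rw [← card_map (Function.Embedding.subtype fun v => v ∈ V) (s := S)]
      apply card_le_card
      intro v hv
      obtain ⟨w, hw, rfl⟩ := mem_map.1 hv
      exact mem_filter.2 ⟨w.2, w.2, hw⟩
    refine e1.trans ?_
    rw [Fintype.card_coe]
    rcases hV with ⟨P, hP, hcard, rfl⟩ | ⟨hyl, rfl⟩
    · exact h3.1 P hP hcard
    · exact h3.2 hyl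
  · obtain ⟨h, hv'⟩ := hv
    obtain ⟨t, ht, l, X, hX, hlt⟩ := hS _ hv'
    refine ⟨t, ht, Fintype.equivFin Λ l, X, hX, lt_of_lt_of_eq hlt ?_⟩
    congr 1
    apply sum_congr rfl
    intro n _
    simp only [Equiv.symm_apply_apply]
    have e2 : (fun n => ((Pool.Agent.H373R2.T7.muR n : ℝ) : ℂ)) = Pool.Agent.H373R2.T7.muC := by
      funext n
      unfold Pool.Agent.H373R2.T7.muR Pool.Agent.H373R2.T7.muC
      push_cast
      rfl
    rw [e2]

open Classical in
/-- Let `r`, `A`, `B`, `K`, `T`, `U`, the integers `κ 1, ..., κ r ≠ 0` and `δ > 0` be fixed and let `N` be large. Let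
`a 1, ..., a r ≥ 1` be arbitrary integers (for example all equal to `1`), and let `g l : ℕ → ℂ`, where `l` ranges over at
most `log ^ T N` indices, be arbitrary functions bounded by `1` (for example one index and `g = 1`, or products of values
of `μ` and `μ ^ 2` at arbitrary fixed shifts of `n`). Let `c j` be arbitrary integers with `|c j| ≤ B N`. For every
`j ≤ r` let `1 ≤ y j ≤ log ^ K N`, and let `V j` be one of the following sets:

* the set of all the integers `v ≤ N` composed of the primes from `P`, where `P` is an ARBITRARY set of at least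
  `y j ^ (1 / 2 + δ) log N` primes that are at most `y j` (there can be as few as about `N ^ (1 / 2 + δ)` such integers);
* the set of all the `y j`-smooth integers `v ≤ N`, if `y j ≥ log ^ (2 + δ) N`.

Then for all the tuples `(v 1, ..., v r)` in `V 1 × ... × V r`, up to a proportion of at most `1 / log ^ U N` of them,
ALL the tuples `(z 1, ..., z r)` of integers with `|z j - (c j + κ j v j)| ≤ log ^ A N` have the following two properties.

* `Chowla`: `|∑ n ≤ x, g l n * ∏ j, μ (a j * n + z j) ^ e j| ≤ N / log ^ U N` for all `l`, for all exponents `e j` in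
  `{0, 1, 2}` and all `x ≤ B N / a j`, where `j` is such that `e j = 1`.
* `Patterns`: for all `l`, all `s` in `{-1, 0, 1} ^ r` and all `x` with `a j * x ≤ B N` for all `j`, the sum of `g l n`
  over the `n ≤ x` with `μ (a j * n + z j) = s j` for all `j` is, up to an error of at most `N / log ^ U N`, equal to
  `2 ^ (- m)` times the sum of `g l n` over the `n ≤ x` with `μ (a j * n + z j) ^ 2 = s j ^ 2` for all `j`, where `m` is
  the number of nonzero entries of `s`. -/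
theorem result (r A B K T U : ℕ) (κ : Fin r → ℤ) (hκ : ∀ j, κ j ≠ 0) (δ : ℝ) (hδ : 0 < δ) :
    ∃ N₀ : ℕ, ∀ N : ℕ, N₀ ≤ N → ∀ y : Fin r → ℕ, (∀ j, 1 ≤ y j ∧ (y j : ℝ) ≤ Real.log N ^ K) →
      ∀ V : Fin r → Finset ℕ, (∀ j,
        (∃ P : Finset ℕ, (∀ p ∈ P, p.Prime ∧ p ≤ y j) ∧ (y j : ℝ) ^ (1 / 2 + δ) * Real.log N ≤ P.card ∧
          V j = composedOf P N) ∨ (Real.log N ^ (2 + δ) ≤ y j ∧ V j = smooth (y j) N)) →
      ∀ c : Fin r → ℤ, (∀ j, |c j| ≤ B * N) →
      ∀ a : Fin r → ℕ, (∀ j, 1 ≤ a j) → ∀ L : ℕ, (L : ℝ) ≤ Real.log N ^ T →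
      ∀ g : Fin L → ℕ → ℂ, (∀ l n, ‖g l n‖ ≤ 1) →
        exceptions (fun j (v : {v // v ∈ V j}) => c j + κ j * ((v : ℕ) : ℤ)) (Real.log N ^ A)
          (fun z => Chowla (B * N) (N / Real.log N ^ U) a g z ∧ Patterns (B * N) (N / Real.log N ^ U) a g z) ≤
          (∏ j, (V j).card : ℝ) / Real.log N ^ U := by
  choose M hM using fun j => single_sm (κ j) (hκ j) δ hδ K B A (T + r + (A + 2) * r) (U + 1)
  obtain ⟨N₀, h0⟩ := core r A B T U
  refine ⟨N₀ + ∑ j, M j, fun N hN y hy V hV c hc a ha L hL g hg => ?_⟩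
  have hMN : ∀ j, M j ≤ N := by
    intro j
    have := Finset.single_le_sum (f := M) (fun _ _ => Nat.zero_le _) (mem_univ j)
    omega
  have h1 := h0 N (by omega) (fun j => {v // v ∈ V j}) (fun j v => c j + κ j * ((v : ℕ) : ℤ))
    (fun j => hM j N (hMN j) (y j) (hy j).1 (hy j).2 (c j) (hc j) (V j) (hV j)) a ha L hL g hg
  simp only [Fintype.card_coe] at h1
  exact h1

end Pool.Agent.Results.MP_c59857_nt.SmoothTuples
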