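import Pool.Agent.V5helper64.TF.Base

/-!
# Chowla's conjecture and sign patterns of the Möbius function: all the tuples of shifts near almost all the tuples
drawn from products of arbitrary thin families of integers of nearly minimal additive energy, for example from the
values of polynomials at the primes

The exponential sum bounds for the Möbius function (Davenport's theorem with arbitrary powers of the logarithm) and
the estimate for a single family of nearly minimal energy are from the starting files (`Pool.Agent.H373R2.T7`,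
`Pool.Agent.R459.Fam2`).
-/

set_option autoImplicit false

namespace Pool.Agent.Results.MP_c59857_nt.ThinFamilies

open Finset
open Pool.Agent.V5helper64.TF

/-- The Möbius function on the integers, `0` at the integers `m ≤ 0` (`m.toNat = 0` for these). -/
def mu (m : ℤ) : ℤ := ArithmeticFunction.moebius m.toNat

/-- For all `l`, all exponents `e j` in `{0, 1, 2}`, all `j` with `e j = 1` and all `x ≤ X / a j`:
`|∑ n ≤ x, g l n * ∏ k, μ (a k * n + z k) ^ e k| ≤ ε`. -/
def Chowla (X : ℕ) (ε : ℝ) {r L : ℕ} (a : Fin r → ℕ) (g : Fin L → ℕ → ℂ) (z : Fin r → ℤ) : Prop :=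
  ∀ l, ∀ e : Fin r → ℕ, (∀ j, e j ≤ 2) → ∀ j, e j = 1 → ∀ x : ℕ, a j * x ≤ X →
    ‖∑ n ∈ Icc 1 x, g l n * ∏ k, (mu (a k * n + z k) : ℂ) ^ e k‖ ≤ ε

open Classical in
/-- For all `l`, all patterns `s` in `{-1, 0, 1} ^ r` and all `x` with `a j * x ≤ X` for all `j`: the sum of `g l n` over
the `n ≤ x` with `μ (a j * n + z j) = s j` for all `j` differs by at most `ε` from `2 ^ (- m)` times the sum of `g l n`
over the `n ≤ x` with `μ (a j * n + z j) ^ 2 = s j ^ 2` for all `j`, where `m` is the number of nonzero entries of `s`. -/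
def Patterns (X : ℕ) (ε : ℝ) {r L : ℕ} (a : Fin r → ℕ) (g : Fin L → ℕ → ℂ) (z : Fin r → ℤ) : Prop :=
  ∀ l, ∀ s : Fin r → ℤ, (∀ j, s j = -1 ∨ s j = 0 ∨ s j = 1) → ∀ x : ℕ, (∀ j, a j * x ≤ X) →
    ‖∑ n ∈ (Icc 1 x).filter (fun n : ℕ => ∀ j, mu (a j * n + z j) = s j), g l n -
      (1 / 2 : ℂ) ^ (univ.filter fun j => s j ≠ 0).card *
        ∑ n ∈ (Icc 1 x).filter (fun n : ℕ => ∀ j, mu (a j * n + z j) ^ 2 = s j ^ 2), g l n‖ ≤ ε

/-- The additive energy of order `p` of a finite family of integers `v i`: the number of solutions of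
`v (a 1) + ... + v (a p) = v (b 1) + ... + v (b p)`. -/
noncomputable def energy (p : ℕ) {ι : Type} [Fintype ι] (v : ι → ℤ) : ℕ :=
  Nat.card {q : (Fin p → ι) × (Fin p → ι) // ∑ j, v (q.1 j) = ∑ j, v (q.2 j)}

open Classical in
/-- The number of the tuples `(i 1, ..., i r)` of indices such that some tuple of integers `z` with
`|z j - v j (i j)| ≤ D` for all `j` does not have the property `P`. -/
noncomputable def exceptions {r : ℕ} {ι : Fin r → Type} [∀ j, Fintype (ι j)] (v : ∀ j, ι j → ℤ) (D : ℝ)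
    (P : (Fin r → ℤ) → Prop) : ℝ :=
  ((univ.filter fun i : (∀ j, ι j) => ∃ z : Fin r → ℤ, (∀ j, |((z j - v j (i j) : ℤ) : ℝ)| ≤ D) ∧ ¬ P z).card : ℝ)

lemma mu_norm (m : ℤ) : ‖(mu m : ℂ)‖ ≤ 1 := by
  have h := Pool.Agent.H373R2.T7.muC_norm m.toNat
  exact h

lemma mu_vals (m : ℤ) : mu m = -1 ∨ mu m = 0 ∨ mu m = 1 := by
  unfold mu
  rcases ArithmeticFunction.moebius_eq_or m.toNat with h | h | h
  · exact Or.inr (Or.inl h)
  · exact Or.inr (Or.inr h)
  · exact Or.inl h

lemma mu_ex (m : ℤ) : Pool.Agent.H373R2.T7.exI Pool.Agent.H373R2.T7.muC m = (mu m : ℂ) := by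
  unfold Pool.Agent.H373R2.T7.exI mu
  split_ifs with h3
  · rfl
  · rw [Int.toNat_of_nonpos (by omega)]
    simp

/-- coefficients of the indicator function of `μ = s` -/
noncomputable def co (s : ℤ) (t : ℕ) : ℂ :=
  if s = 0 then (if t = 0 then 1 else if t = 1 then 0 else -1) else (if t = 0 then 0 else if t = 1 then s / 2 else 1 / 2)

/-- coefficients of the indicator function of `μ ^ 2 = s ^ 2`, divided by two for `s ≠ 0` -/
noncomputable def co' (s : ℤ) (t : ℕ) : ℂ :=
  if s = 0 then (if t = 0 then 1 else if t = 1 then 0 else -1) else (if t = 0 then 0 else if t = 1 then 0 else 1 / 2)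

lemma co_ind (s : ℤ) (hs : s = -1 ∨ s = 0 ∨ s = 1) (m : ℤ) :
    ∑ t ∈ range 3, co s t * (mu m : ℂ) ^ t = if mu m = s then 1 else 0 := by
  rw [sum_range_succ, sum_range_succ, sum_range_succ, sum_range_zero]
  unfold co
  rcases hs with rfl | rfl | rfl <;> rcases mu_vals m with h | h | h <;> rw [h] <;> norm_num

lemma co'_ind (s : ℤ) (hs : s = -1 ∨ s = 0 ∨ s = 1) (m : ℤ) :
    ∑ t ∈ range 3, co' s t * (mu m : ℂ) ^ t =
      (if s ≠ 0 then 1 / 2 else 1) * if mu m ^ 2 = s ^ 2 then 1 else 0 := by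
  rw [sum_range_succ, sum_range_succ, sum_range_succ, sum_range_zero]
  unfold co'
  rcases hs with rfl | rfl | rfl <;> rcases mu_vals m with h | h | h <;> rw [h] <;> norm_num

lemma co_norm (s : ℤ) (hs : s = -1 ∨ s = 0 ∨ s = 1) (t : ℕ) : ‖co s t‖ ≤ 1 := by
  unfold co
  rcases hs with rfl | rfl | rfl <;> split_ifs <;> norm_num

lemma prod_ind {r : ℕ} (c : Fin r → ℕ → ℂ) (u : Fin r → ℂ) :
    ∏ j, ∑ t ∈ range 3, c j t * u j ^ t =
      ∑ e ∈ Fintype.piFinset (fun _ : Fin r => range 3), (∏ j, c j (e j)) * ∏ j, u j ^ e j := by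
  rw [prod_univ_sum]
  apply sum_congr rfl
  intro e _
  rw [prod_mul_distrib]

lemma ind_pat {r : ℕ} (s : Fin r → ℤ) (hs : ∀ j, s j = -1 ∨ s j = 0 ∨ s j = 1) (m : Fin r → ℤ) (w : ℂ)
    [Decidable (∀ j, mu (m j) = s j)] :
    (if ∀ j, mu (m j) = s j then w else 0) =
      ∑ e ∈ Fintype.piFinset (fun _ : Fin r => range 3), (∏ j, co (s j) (e j)) * (w * ∏ j, (mu (m j) : ℂ) ^ e j) := by
  have e2 := prod_ind (fun j t => co (s j) t) (fun j => (mu (m j) : ℂ))
  simp only [co_ind _ (hs _)] at e2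
  have e3 : ∑ e ∈ Fintype.piFinset (fun _ : Fin r => range 3), (∏ j, co (s j) (e j)) *
      (w * ∏ j, (mu (m j) : ℂ) ^ e j) = w * ∏ j, (if mu (m j) = s j then (1 : ℂ) else 0) := by
    rw [e2, mul_sum]
    apply sum_congr rfl
    intro e _
    ring
  rw [e3]
  by_cases h : ∀ j, mu (m j) = s j
  · rw [if_pos h, prod_eq_one (fun j _ => if_pos (h j)), mul_one]
  · rw [if_neg h]
    push Not at h
    obtain ⟨j, hj⟩ := h
    rw [prod_eq_zero (mem_univ j) (if_neg hj), mul_zero]

lemma ind_pat' {r : ℕ} (s : Fin r → ℤ) (hs : ∀ j, s j = -1 ∨ s j = 0 ∨ s j = 1) (m : Fin r → ℤ) (w : ℂ)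
    [Decidable (∀ j, mu (m j) ^ 2 = s j ^ 2)] :
    (1 / 2 : ℂ) ^ (univ.filter fun j => s j ≠ 0).card * (if ∀ j, mu (m j) ^ 2 = s j ^ 2 then w else 0) =
      ∑ e ∈ Fintype.piFinset (fun _ : Fin r => range 3), (∏ j, co' (s j) (e j)) * (w * ∏ j, (mu (m j) : ℂ) ^ e j) := by
  have e2 := prod_ind (fun j t => co' (s j) t) (fun j => (mu (m j) : ℂ))
  simp only [co'_ind _ (hs _)] at e2
  have e4 : ∏ j, (if s j ≠ 0 then (1 / 2 : ℂ) else 1) = (1 / 2 : ℂ) ^ (univ.filter fun j => s j ≠ 0).card := by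
    rw [prod_ite, prod_const_one, mul_one, prod_const]
  rw [prod_mul_distrib, e4] at e2
  have e3 : ∑ e ∈ Fintype.piFinset (fun _ : Fin r => range 3), (∏ j, co' (s j) (e j)) *
      (w * ∏ j, (mu (m j) : ℂ) ^ e j) = w * ((1 / 2 : ℂ) ^ (univ.filter fun j => s j ≠ 0).card *
        ∏ j, (if mu (m j) ^ 2 = s j ^ 2 then (1 : ℂ) else 0)) := by
    rw [e2, mul_sum]
    apply sum_congr rfl
    intro e _
    ring
  rw [e3]
  by_cases h : ∀ j, mu (m j) ^ 2 = s j ^ 2
  · rw [if_pos h, prod_eq_one (fun j _ => if_pos (h j))]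
    ring
  · rw [if_neg h]
    push Not at h
    obtain ⟨j, hj⟩ := h
    rw [prod_eq_zero (mem_univ j) (if_neg hj)]
    ring

lemma patterns_of {X : ℕ} {ε : ℝ} {r L : ℕ} {a : Fin r → ℕ} {g : Fin L → ℕ → ℂ} {z : Fin r → ℤ} (hε : 0 ≤ ε)
    (h : Chowla X ε a g z) : Patterns X (3 ^ r * ε) a g z := by
  classical
  intro l s hs x hx
  rw [sum_filter, sum_filter, mul_sum]
  simp only [ind_pat s hs, ind_pat' s hs]
  rw [← sum_sub_distrib]
  simp only [← sum_sub_distrib, ← sub_mul]
  rw [sum_comm]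
  simp only [← mul_sum]
  refine (norm_sum_le _ _).trans ?_
  have e5 : ((Fintype.piFinset (fun _ : Fin r => range 3)).card : ℝ) = 3 ^ r := by
    rw [Fintype.card_piFinset]
    simp
  rw [← e5, ← nsmul_eq_mul]
  apply sum_le_card_nsmul
  intro e he
  rw [norm_mul]
  by_cases h1 : ∃ j, e j = 1
  · obtain ⟨j, hj⟩ := h1
    have e6 : ∏ j, co' (s j) (e j) = 0 := by
      apply prod_eq_zero (mem_univ j)
      rw [hj]
      unfold co'
      split_ifs <;> simp_all
    have e7 : ‖∏ j, co (s j) (e j)‖ ≤ 1 := by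
      rw [norm_prod]
      exact prod_le_one (fun _ _ => norm_nonneg _) fun j _ => co_norm _ (hs j) _
    rw [e6, sub_zero]
    have e8 := h l e (fun j => by have := Fintype.mem_piFinset.1 he j; rw [mem_range] at this; omega) j hj x (hx j)
    calc _ ≤ 1 * ε := mul_le_mul e7 e8 (norm_nonneg _) zero_le_one
      _ = ε := one_mul _
  · push Not at h1
    have e6 : ∏ j, co (s j) (e j) = ∏ j, co' (s j) (e j) := by
      apply prod_congr rfl
      intro j _
      have := h1 j
      unfold co co'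
      split_ifs <;> simp_all
    rw [e6, sub_self, norm_zero, zero_mul]
    exact hε

lemma chowla_mono {X : ℕ} {ε ε' : ℝ} {r L : ℕ} {a : Fin r → ℕ} {g : Fin L → ℕ → ℂ} {z : Fin r → ℤ} (hε : ε ≤ ε')
    (h : Chowla X ε a g z) : Chowla X ε' a g z :=
  fun l e he j hj x hx => (h l e he j hj x hx).trans hε

lemma patterns_mono {X : ℕ} {ε ε' : ℝ} {r L : ℕ} {a : Fin r → ℕ} {g : Fin L → ℕ → ℂ} {z : Fin r → ℤ} (hε : ε ≤ ε')
    (h : Patterns X ε a g z) : Patterns X ε' a g z :=
  fun l s hs x hx => (h l s hs x hx).trans hε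

theorem core (r A B C T U : ℕ) (p : Fin r → ℕ) : ∃ N₀ : ℕ, ∀ N : ℕ, N₀ ≤ N →
    ∀ (ι : Fin r → Type) [∀ j, Fintype (ι j)] (v : ∀ j, ι j → ℤ), (∀ j i, |v j i| ≤ B * N) →
    (∀ j, (energy (p j) (v j) : ℝ) * N ≤ Real.log N ^ C * (Fintype.card (ι j) : ℝ) ^ (2 * p j)) →
    ∀ a : Fin r → ℕ, (∀ j, 1 ≤ a j) → ∀ L : ℕ, (L : ℝ) ≤ Real.log N ^ T → ∀ g : Fin L → ℕ → ℂ, (∀ l n, ‖g l n‖ ≤ 1) →
      exceptions v (Real.log N ^ A) (fun z => Chowla (B * N) (N / Real.log N ^ U) a g z ∧
        Patterns (B * N) (N / Real.log N ^ U) a g z) ≤ (∏ j, Fintype.card (ι j) : ℝ) / Real.log N ^ U := by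
  classical
  have H := fun j : Fin r => fam_ty Pool.Agent.H373R2.T7.muC Pool.Agent.H373R2.T7.muC_norm
    Pool.Agent.H373R2.T7.sup_muC (p j) B C (T + r + (A + 2) * r) A (U + 1)
  choose M hM using H
  obtain ⟨N₁, h1⟩ := Pool.Agent.H373R2.T7.ev_L' (3 ^ r + r + 3)
  refine ⟨∑ j, M j + N₁ + 3, fun N hN ι _ v hv hE a ha L hL g hg => ?_⟩
  have hL1 := h1 N (by omega)
  have h3r : (1 : ℝ) ≤ 3 ^ r := one_le_pow₀ (by norm_num)
  have hr0 : (0 : ℝ) ≤ r := Nat.cast_nonneg r
  have hN0 : (0 : ℝ) < N := by exact_mod_cast (by omega : 0 < N)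
  have hMN : ∀ j, M j ≤ N := by
    intro j
    have := Finset.single_le_sum (f := M) (fun _ _ => Nat.zero_le _) (mem_univ j)
    omega
  obtain ⟨D, hD⟩ : ∃ D, D = Real.log (N : ℝ) := ⟨_, rfl⟩
  rw [← hD] at hL1 hE hL ⊢
  have hD0 : 0 < D := by linarith
  have hD1 : 1 ≤ D := by linarith
  have hD3 : 3 ≤ D := by linarith
  obtain ⟨Q, hQ⟩ : ∃ Q, Q = ⌊D ^ A⌋₊ := ⟨_, rfl⟩
  have hQ1 : (Q : ℝ) ≤ D ^ A := by rw [hQ]; exact Nat.floor_le (by positivity)
  have hcard : ((L * (3 ^ r * (2 * Q + 1) ^ r) : ℕ) : ℝ) ≤ D ^ (T + r + (A + 2) * r) := by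
    push_cast
    rw [pow_add, pow_add, mul_assoc]
    refine mul_le_mul hL ?_ (by positivity) (by positivity)
    refine mul_le_mul (pow_le_pow_left₀ (by norm_num) hD3 _) ?_ (by positivity) (by positivity)
    rw [pow_mul]
    apply pow_le_pow_left₀ (by positivity)
    have hA : 1 ≤ D ^ A := one_le_pow₀ hD1
    calc (2 * Q + 1 : ℝ) ≤ 3 * D ^ A := by linarith
      _ ≤ (D * D) * D ^ A := by
          apply mul_le_mul_of_nonneg_right _ (by positivity)
          nlinarith
      _ = _ := by ring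
  -- the exceptional sets for the directions
  obtain ⟨E, hEd⟩ : ∃ E : Fin r → Finset (∀ j, ι j), E = fun j => univ.filter fun i => ∃ z : Fin r → ℤ,
      (∀ k, |((z k - v k (i k) : ℤ) : ℝ)| ≤ D ^ A) ∧ ∃ l, ∃ e : Fin r → ℕ, (∀ k, e k ≤ 2) ∧ e j = 1 ∧
      ∃ x : ℕ, a j * x ≤ B * N ∧ (N : ℝ) / D ^ (U + 1) <
        ‖∑ n ∈ Icc 1 x, g l n * ∏ k, (mu (a k * n + z k) : ℂ) ^ e k‖ := ⟨_, rfl⟩
  have hsub : (univ.filter fun i : (∀ j, ι j) => ∃ z : Fin r → ℤ, (∀ j, |((z j - v j (i j) : ℤ) : ℝ)| ≤ D ^ A) ∧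
      ¬ (Chowla (B * N) (N / D ^ U) a g z ∧ Patterns (B * N) (N / D ^ U) a g z)) ⊆ univ.biUnion E := by
    intro i hi
    obtain ⟨z, hz, hbad⟩ := (mem_filter.1 hi).2
    have h3 : ¬ Chowla (B * N) (N / D ^ (U + 1)) a g z := by
      intro h4
      apply hbad
      have e1 : (N : ℝ) / D ^ (U + 1) ≤ N / D ^ U := by
        apply div_le_div_of_nonneg_left hN0.le (by positivity)
        exact pow_le_pow_right₀ hD1 (by omega)
      refine ⟨chowla_mono e1 h4, patterns_mono ?_ (patterns_of (by positivity) h4)⟩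
      rw [pow_succ, ← mul_div_assoc, div_le_div_iff₀ (by positivity) (by positivity)]
      have e2 : (3 : ℝ) ^ r ≤ D := by linarith
      calc 3 ^ r * (N : ℝ) * D ^ U ≤ D * (N : ℝ) * D ^ U := by gcongr
        _ = _ := by ring
    unfold Chowla at h3
    push Not at h3
    obtain ⟨l, e, he, j, hj, x, hx, hlt⟩ := h3
    rw [mem_biUnion]
    refine ⟨j, mem_univ _, ?_⟩
    rw [hEd]
    exact mem_filter.2 ⟨mem_univ _, z, hz, l, e, he, hj, x, hx, hlt⟩
  have hone : ∀ j, ((E j).card : ℝ) ≤ Fintype.card (∀ j, ι j) * (1 / D ^ (U + 1)) := by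
    intro j
    apply line_count j _ _ (by positivity)
    intro i
    rw [mul_one_div, hD]
    refine hM j N (hMN j) (ι j) (v j) (hv j) (by rw [← hD]; exact hE j)
      (Fin L × (Fin r → Fin 3) × (Fin r → Fin (2 * Q + 1))) ?_ (a j)
      (fun q n => g q.1 n * ∏ k ∈ univ.erase j, (mu (a k * n + (v k (i k) + (((q.2.2 k : ℕ) : ℤ) - Q))) : ℂ) ^
        (q.2.1 k : ℕ)) (ha j) ?_ _ ?_
    · rw [← hD]
      refine le_trans (le_of_eq ?_) hcard
      simp [Fintype.card_prod]
    · rintro ⟨l, e, c⟩ n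
      have e7 : ‖∏ k ∈ univ.erase j, (mu (a k * n + (v k (i k) + (((c k : ℕ) : ℤ) - Q))) : ℂ) ^ (e k : ℕ)‖ ≤ 1 := by
        rw [norm_prod]
        refine prod_le_one (fun _ _ => norm_nonneg _) fun k _ => ?_
        rw [norm_pow]
        exact pow_le_one₀ (norm_nonneg _) (mu_norm _)
      have e8 := mul_le_mul (hg l n) e7 (norm_nonneg _) zero_le_one
      rw [mul_one, ← norm_mul] at e8
      exact e8
    · intro t ht
      have ht1 := (mem_filter.1 ht).2
      rw [hEd] at ht1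
      obtain ⟨z, hz, l, e, he, hj, x, hx, hlt⟩ := (mem_filter.1 ht1).2
      have hzj := hz j
      rw [Function.update_self] at hzj
      rw [← hD]
      have hzQ : ∀ k, k ≠ j → |z k - v k (i k)| ≤ Q := by
        intro k hk
        have h4 := hz k
        rw [Function.update_of_ne hk] at h4
        rw [hQ]
        have h5 : ((|z k - v k (i k)|).toNat : ℝ) ≤ D ^ A := by
          have h6 : (((|z k - v k (i k)|).toNat : ℤ) : ℝ) = |((z k - v k (i k) : ℤ) : ℝ)| := by
            rw [Int.toNat_of_nonneg (abs_nonneg _)]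
            push_cast
            rfl
          have h7 : ((|z k - v k (i k)|).toNat : ℝ) = |((z k - v k (i k) : ℤ) : ℝ)| := by
            rw [← h6]
            push_cast
            rfl
          rw [h7]
          exact h4
        have h8 := Nat.le_floor h5
        omega
      refine ⟨z j - v j t, hzj, ⟨l, fun k => ⟨e k, by have := he k; omega⟩,
        fun k => ⟨if k = j then 0 else (z k - v k (i k) + Q).toNat, ?_⟩⟩, x, hx, ?_⟩
      · split_ifs with hk
        · omega
        · have h4 := abs_le.1 (hzQ k hk)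
          omega
      · refine lt_of_lt_of_eq hlt ?_
        congr 1
        apply sum_congr rfl
        intro n _
        rw [← mul_prod_erase univ _ (mem_univ j), hj, pow_one, mu_ex]
        have e3 : ((a j * n : ℕ) : ℤ) + (v j t + (z j - v j t)) = a j * n + z j := by
          push_cast
          ring
        rw [e3]
        have e4 : ∏ k ∈ univ.erase j, (mu (a k * n + z k) : ℂ) ^ e k = ∏ k ∈ univ.erase j,
            (mu (a k * n + (v k (i k) + (((if k = j then 0 else (z k - v k (i k) + Q).toNat : ℕ) : ℤ) - Q))) : ℂ) ^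
              e k := by
          apply prod_congr rfl
          intro k hk
          have hkj : k ≠ j := (mem_erase.1 hk).1
          rw [if_neg hkj]
          have h4 := abs_le.1 (hzQ k hkj)
          congr 3
          omega
        rw [e4]
        ring
  unfold exceptions
  have e5 : (((univ.filter fun i : (∀ j, ι j) => ∃ z : Fin r → ℤ, (∀ j, |((z j - v j (i j) : ℤ) : ℝ)| ≤ D ^ A) ∧
      ¬ (Chowla (B * N) (N / D ^ U) a g z ∧ Patterns (B * N) (N / D ^ U) a g z)).card : ℕ) : ℝ) ≤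
      ∑ j, ((E j).card : ℝ) := by
    exact_mod_cast (card_le_card hsub).trans card_biUnion_le
  refine le_trans (le_trans (le_of_eq ?_) e5) ?_
  · congr 2
  refine (sum_le_sum fun j _ => hone j).trans ?_
  rw [sum_const, card_univ, Fintype.card_fin, nsmul_eq_mul, Fintype.card_pi]
  push_cast
  obtain ⟨P, hP⟩ : ∃ P : ℝ, P = ∏ j, (Fintype.card (ι j) : ℝ) := ⟨_, rfl⟩
  rw [← hP]
  have hP0 : 0 ≤ P := by rw [hP]; positivity
  rw [pow_succ, mul_one_div, ← mul_div_assoc, div_le_div_iff₀ (by positivity) (by positivity)]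
  have e6 : (r : ℝ) ≤ D := by linarith
  calc (r : ℝ) * P * D ^ U ≤ D * P * D ^ U := by gcongr
    _ = _ := by ring

/-- the energy of a subfamily -/
lemma energy_sub (p x : ℕ) (s : ℕ → ℤ) (M : Finset ℕ) (hM : M ⊆ Icc 1 x) :
    energy p (fun m : {m // m ∈ M} => s m) ≤ Pool.Agent.H373R2.T7.energy p x s := by
  classical
  unfold energy Pool.Agent.H373R2.T7.energy
  rw [Nat.card_eq_fintype_card, Fintype.card_subtype]
  apply card_le_card_of_injOn (fun q => (fun j => ((q.1 j : {m // m ∈ M}) : ℕ), fun j => ((q.2 j : {m // m ∈ M}) : ℕ)))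
  · intro q hq
    rw [mem_coe, mem_filter] at hq
    rw [mem_coe, mem_filter, mem_product, Fintype.mem_piFinset, Fintype.mem_piFinset]
    exact ⟨⟨fun j => hM (q.1 j).2, fun j => hM (q.2 j).2⟩, hq.2⟩
  · intro q _ q' _ h2
    simp only [Prod.mk.injEq] at h2
    apply Prod.ext
    · funext j
      exact Subtype.ext (congrFun h2.1 j)
    · funext j
      exact Subtype.ext (congrFun h2.2 j)

/-- Let `r`, `A`, `B`, `C`, `T`, `U` be fixed and let `N` be large. Let `a 1, ..., a r ≥ 1` be arbitrary integers (for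
example all equal to `1`), and let `g l : ℕ → ℂ`, where `l` ranges over at most `log ^ T N` indices, be arbitrary
functions bounded by `1` (for example one index and `g = 1`, or indicator functions of arbitrary sets, or products of
values of `μ` and `μ ^ 2` at arbitrary fixed shifts of `n`).

(1) For `j ≤ r` let `v j i`, `i ∈ ι j`, be an ARBITRARY finite family of integers with `|v j i| ≤ B N` and with an
additive energy of a fixed order `p j` of at most `log ^ C N` times `#(ι j) ^ (2 p j) / N` (up to the power of the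
logarithm this is the minimal size of the energy; the family may have as few as `N ^ (1 / p j)` members). Then for all
the tuples `(i 1, ..., i r)`, up to a proportion of at most `1 / log ^ U N` of them, ALL the tuples `(z 1, ..., z r)` of
integers with `|z j - v j (i j)| ≤ log ^ A N` have the following two properties.

* `Chowla`: `|∑ n ≤ x, g l n * ∏ j, μ (a j * n + z j) ^ e j| ≤ N / log ^ U N` for all `l`, for all exponents `e j` in
  `{0, 1, 2}` and all `x ≤ B N / a j`, where `j` is such that `e j = 1`.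
* `Patterns`: for all `l`, all `s` in `{-1, 0, 1} ^ r` and all `x` with `a j * x ≤ B N` for all `j`, the sum of `g l n`
  over the `n ≤ x` with `μ (a j * n + z j) = s j` for all `j` is, up to an error of at most `N / log ^ U N`, equal to
  `2 ^ (- m)` times the sum of `g l n` over the `n ≤ x` with `μ (a j * n + z j) ^ 2 = s j ^ 2` for all `j`, where `m` is
  the number of nonzero entries of `s`.

(2) In particular this holds for `v j m = c j + f j m`, where `f j` is a fixed polynomial of degree `d j ≥ 1` with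
integer coefficients, `|c j| ≤ B N`, `N / log ^ C N ≤ x j ^ d j ≤ B N`, and `m` ranges over an ARBITRARY set `M j` of at
least `x j / log ^ C N` integers in `[1, x j]`, for example over the primes in `[1, x j]`. -/
theorem result (r A B C T U : ℕ) :
    (∀ p : Fin r → ℕ, ∃ N₀ : ℕ, ∀ N : ℕ, N₀ ≤ N → ∀ (ι : Fin r → Type) [∀ j, Fintype (ι j)] (v : ∀ j, ι j → ℤ),
      (∀ j i, |v j i| ≤ B * N) →
      (∀ j, (energy (p j) (v j) : ℝ) * N ≤ Real.log N ^ C * (Fintype.card (ι j) : ℝ) ^ (2 * p j)) →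
      ∀ a : Fin r → ℕ, (∀ j, 1 ≤ a j) → ∀ L : ℕ, (L : ℝ) ≤ Real.log N ^ T →
      ∀ g : Fin L → ℕ → ℂ, (∀ l n, ‖g l n‖ ≤ 1) →
        exceptions v (Real.log N ^ A) (fun z => Chowla (B * N) (N / Real.log N ^ U) a g z ∧
          Patterns (B * N) (N / Real.log N ^ U) a g z) ≤ (∏ j, Fintype.card (ι j) : ℝ) / Real.log N ^ U) ∧
    (∀ f : Fin r → Polynomial ℤ, (∀ j, 1 ≤ (f j).natDegree) → ∃ N₀ : ℕ, ∀ N : ℕ, N₀ ≤ N → ∀ x : Fin r → ℕ,
      (∀ j, N / Real.log N ^ C ≤ (x j : ℝ) ^ (f j).natDegree ∧ x j ^ (f j).natDegree ≤ B * N) →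
      ∀ M : Fin r → Finset ℕ, (∀ j, M j ⊆ Icc 1 (x j) ∧ x j / Real.log N ^ C ≤ ((M j).card : ℝ)) →
      ∀ c : Fin r → ℤ, (∀ j, |c j| ≤ B * N) →
      ∀ a : Fin r → ℕ, (∀ j, 1 ≤ a j) → ∀ L : ℕ, (L : ℝ) ≤ Real.log N ^ T →
      ∀ g : Fin L → ℕ → ℂ, (∀ l n, ‖g l n‖ ≤ 1) →
        exceptions (fun j (m : {m // m ∈ M j}) => c j + (f j).eval (m : ℤ)) (Real.log N ^ A)
          (fun z => Chowla (B * N) (N / Real.log N ^ U) a g z ∧ Patterns (B * N) (N / Real.log N ^ U) a g z) ≤
          (∏ j, (M j).card : ℝ) / Real.log N ^ U) := by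
  classical
  refine ⟨fun p => core r A B C T U p, fun f hf => ?_⟩
  choose p B' hBB' N₁ h1 using fun j => Pool.Agent.TH823.Fam.poly_family (f j) (hf j) B C
  obtain ⟨N₂, h2⟩ := Pool.Agent.H373R2.T7.ev_L' 1
  obtain ⟨N₀, h0⟩ := core r A (B + ∑ j, B' j) (C + 1 + C * (2 * ∑ j, p j)) T U p
  refine ⟨N₀ + ∑ j, N₁ j + N₂ + 1, fun N hN x hx M hM c hc a ha L hL g hg => ?_⟩
  have hL1 := h2 N (by omega)
  have hL0 : 0 < Real.log N := by linarith
  have hNj : ∀ j, N₁ j ≤ N := by
    intro j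
    have := Finset.single_le_sum (f := N₁) (fun _ _ => Nat.zero_le _) (mem_univ j)
    omega
  have hBj : ∀ j, B' j ≤ B + ∑ j, B' j := by
    intro j
    have := Finset.single_le_sum (f := B') (fun _ _ => Nat.zero_le _) (mem_univ j)
    omega
  have h3 := fun j => h1 j N (hNj j) (x j) (hx j).2
    (by have := (hx j).1; rwa [div_le_iff₀' (by positivity)] at this) (c j) (hc j)
  have h5 := h0 N (by omega) (fun j => {m // m ∈ M j}) (fun j m => c j + (f j).eval (m : ℤ))
    (fun j i => ((h3 j).1 _ ((hM j).1 i.2)).trans (by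
      have : ((B' j : ℕ) : ℤ) ≤ ((B + ∑ j, B' j : ℕ) : ℤ) := by exact_mod_cast hBj j
      exact mul_le_mul_of_nonneg_right this (by positivity))) (fun j => by
    have e1 := energy_sub (p j) (x j) (fun m => c j + (f j).eval (m : ℤ)) (M j) (hM j).1
    have e2 : (energy (p j) (fun m : {m // m ∈ M j} => c j + (f j).eval (m : ℤ)) : ℝ) ≤
        (Pool.Agent.H373R2.T7.energy (p j) (x j) (fun m => c j + (f j).eval (m : ℤ)) : ℝ) := by exact_mod_cast e1
    have e3 : (x j : ℝ) ≤ Real.log N ^ C * (M j).card := by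
      have := (hM j).2
      rwa [div_le_iff₀' (by positivity)] at this
    have e4 : C * (2 * p j) ≤ C * (2 * ∑ j, p j) := by
      have := Finset.single_le_sum (f := p) (fun _ _ => Nat.zero_le _) (mem_univ j)
      exact Nat.mul_le_mul_left _ (by omega)
    rw [Fintype.card_coe]
    calc (energy (p j) (fun m : {m // m ∈ M j} => c j + (f j).eval (m : ℤ)) : ℝ) * N
        ≤ (Pool.Agent.H373R2.T7.energy (p j) (x j) (fun m => c j + (f j).eval (m : ℤ)) : ℝ) * N :=
          mul_le_mul_of_nonneg_right e2 (Nat.cast_nonneg _)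
      _ ≤ Real.log N ^ (C + 1) * (x j : ℝ) ^ (2 * p j) := (h3 j).2
      _ ≤ Real.log N ^ (C + 1) * (Real.log N ^ C * (M j).card) ^ (2 * p j) := by
          apply mul_le_mul_of_nonneg_left _ (by positivity)
          exact pow_le_pow_left₀ (Nat.cast_nonneg _) e3 _
      _ = Real.log N ^ (C + 1 + C * (2 * p j)) * ((M j).card : ℝ) ^ (2 * p j) := by
          rw [mul_pow, ← pow_mul, pow_add]; ring
      _ ≤ _ := by
          apply mul_le_mul_of_nonneg_right _ (by positivity)
          exact pow_le_pow_right₀ hL1 (by omega)) a ha L hL g hg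
  simp only [Fintype.card_coe] at h5
  refine le_trans ?_ h5
  unfold exceptions
  apply Nat.cast_le.2
  apply card_le_card
  intro i hi
  rw [mem_filter] at hi ⊢
  obtain ⟨hi1, z, hz, hbad⟩ := hi
  refine ⟨hi1, z, hz, fun hgood => hbad ?_⟩
  have hX : B * N ≤ (B + ∑ j, B' j) * N := Nat.mul_le_mul_right _ (by omega)
  exact ⟨fun l e he j hj x hx => hgood.1 l e he j hj x (hx.trans hX),
    fun l s hs x hx => hgood.2 l s hs x (fun j => (hx j).trans hX)⟩

end Pool.Agent.Results.MP_c59857_nt.ThinFamilies
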