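import Pool.Agent.V5helper49.BW.Main

set_option autoImplicit false

namespace Pool.Agent.Results.MP_c59857_nt.WindowsOfShifts

open Finset

/-- The value of the Möbius function at the absolute value of `m`, and `0` for `m = 0`. -/
noncomputable def mu (m : ℤ) : ℝ := ((ArithmeticFunction.moebius m.natAbs : ℤ) : ℝ)

/-- The sum over `1 ≤ n ≤ x` of `∏ i, mu(a i n + b i d + c i)^(e i)`, in which for each `j` in `J` the
factor with index `j` is moreover multiplied by `g j (a j n + b j d + c j)`. -/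
noncomputable def corr {k : ℕ} (a b c : Fin k → ℤ) (e : Fin k → ℕ) (J : Finset (Fin k))
    (g : Fin k → ℤ → ℝ) (x : ℕ) (d : ℤ) : ℝ :=
  ∑ n ∈ Icc (1 : ℤ) x, (∏ i, mu (a i * n + b i * d + c i) ^ (e i)) *
    ∏ j ∈ J, g j (a j * n + b j * d + c j)

/-- The number of the `1 ≤ n ≤ x` for which all the numbers `a i n + b i d + c i` are squarefree. -/
noncomputable def total {k : ℕ} (a b c : Fin k → ℤ) (x : ℕ) (d : ℤ) : ℝ :=
  ∑ n ∈ Icc (1 : ℤ) x, ∏ i, mu (a i * n + b i * d + c i) ^ 2

open Classical in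
/-- Let `a i ≠ 0` and `b i` be integers, `e i` in `{1, 2}`, let `s ≥ 2` be the number of the exponents
equal to one, let `e i₀ = 1`, and let the form `a i₀ n + b i₀ d` be proportional to none of the other
forms with exponent one. For all `R` and `ε > 0` there is a `K` such that for all `D ≥ K`, all
`x ≥ D / R`, all integers `c i` of size at most `R x` and all functions `g i` with values `1` and `-1`:
for all but at most `ε D` of the `1 ≤ d ≤ D` the sum over `n ≤ x` of `∏ i, mu(a i n + b i d + c i)^(e i)`,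
each factor with exponent one except that with index `i₀` being multiplied by the arbitrary sign
`g i (a i n + b i d + c i)`, is in absolute value at most `1 - 1 / (2 ^ (s - 1) - 1)` times the trivial
bound, plus `ε x`. -/
theorem result (k : ℕ) (a b : Fin k → ℤ) (ha : ∀ i, a i ≠ 0) (e : Fin k → ℕ)
    (he : ∀ i, e i = 1 ∨ e i = 2) (hs : 2 ≤ (univ.filter (fun i => e i = 1)).card)
    (i₀ : Fin k) (hi₀ : e i₀ = 1) (hnp : ∀ j, j ≠ i₀ → e j = 1 → a i₀ * b j ≠ a j * b i₀)
    (R : ℕ) (ε : ℝ) (hε : 0 < ε) :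
    ∃ K : ℕ, ∀ D x : ℕ, K ≤ D → D ≤ R * x → ∀ c : Fin k → ℤ, (∀ i, |c i| ≤ R * x) →
      ∀ g : Fin k → ℤ → ℝ, (∀ i y, g i y = 1 ∨ g i y = -1) →
      (((Icc (1 : ℤ) D).filter (fun d =>
        (1 - 1 / (2 ^ ((univ.filter (fun i => e i = 1)).card - 1) - 1)) * total a b c x d + ε * x <
          |corr a b c e ((univ.filter (fun i => e i = 1)).erase i₀) g x d|)).card : ℝ) ≤ ε * D := by
  obtain ⟨m, hm⟩ : ∃ m, (univ.filter (fun i => e i = 1)).card = m + 2 :=
    ⟨(univ.filter (fun i => e i = 1)).card - 2, by omega⟩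
  obtain ⟨K, hK⟩ := Pool.Agent.V5helper49.BW.main R k a b e ha he i₀ hi₀ m hm hnp ε hε
  refine ⟨K, fun D x hD hDx c hc g hg => ?_⟩
  have h := hK D x hD hDx c hc g hg
  have ht : ∀ d, Pool.Agent.V5helper49.BW.co a b c (fun _ => 2) ∅ g x d = total a b c x d := by
    intro d
    unfold Pool.Agent.V5helper49.BW.co total
    apply sum_congr rfl
    intro n _
    rw [prod_empty, mul_one]
    rfl
  have hm' : m + 2 - 1 = m + 1 := rfl
  rw [hm, hm']
  simp only [ht] at h
  convert h using 4
  exact Iff.rfl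

end Pool.Agent.Results.MP_c59857_nt.WindowsOfShifts
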